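import Mathlib
import Pool.Agent.Helper981.KP.ZY

/-!
# MP_7216ee_lc : the complete graph scenario `K_n` is not Shannon-complete for `n ≥ 5`

We encode the joint variable of `A_2, A_3` by a fifth variable `A_4`. In the Zhang-Yeung inequality
for `A_0, A_1, A_2, A_3` the only triples are `{0, 2, 3}` and `{1, 2, 3}`; they are replaced by the
pairs `{0, 4}` and `{1, 4}`, with a correction `5 * (h 24 + h 34 - h 4 - h 23)` in terms of pairs.
-/

namespace Pool.Agent.Results.MP_7216ee_lc.PairScenario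

open Pool.Agent.Helper981.KP

/-- A polymatroid on `{0, ..., n-1}`. -/
def IsPolymatroid {n : ℕ} (f : Finset (Fin n) → ℝ) : Prop :=
  f ∅ = 0 ∧ (∀ S, 0 ≤ f S) ∧ (∀ S T, S ⊆ T → f S ≤ f T) ∧
    ∀ S T, f (S ∩ T) + f (S ∪ T) ≤ f S + f T

/-- The restriction of an outcome of `n` random variables to the variables in `S`. -/
def restr {n : ℕ} (S : Finset (Fin n)) (x : Fin n → ℕ) : S → ℕ := fun i => x i

/-- The function `p` is the joint law of `n` discrete random variables (with values in `ℕ`). -/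
def IsLaw {n : ℕ} (p : (Fin n → ℕ) → ℝ) : Prop := (∀ x, 0 ≤ p x) ∧ HasSum p 1

/-- The law of the variables in `S`. -/
noncomputable def marg {n : ℕ} (p : (Fin n → ℕ) → ℝ) (S : Finset (Fin n)) (y : S → ℕ) : ℝ :=
  ∑' x : (restr S ⁻¹' {y} : Set (Fin n → ℕ)), p x

/-- The Shannon entropy (base `2`) of the variables in `S`. -/
noncomputable def ent {n : ℕ} (p : (Fin n → ℕ) → ℝ) (S : Finset (Fin n)) : ℝ :=
  ∑' y : S → ℕ, -(marg p S y * Real.logb 2 (marg p S y))

/-- All the entropies are finite. -/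
def FiniteEntropy {n : ℕ} (p : (Fin n → ℕ) → ℝ) : Prop :=
  ∀ S : Finset (Fin n), Summable fun y : S → ℕ => -(marg p S y * Real.logb 2 (marg p S y))

/-- The function `h` is an entropic polymatroid. -/
def IsEntropic {n : ℕ} (h : Finset (Fin n) → ℝ) : Prop :=
  ∃ p : (Fin n → ℕ) → ℝ, IsLaw p ∧ FiniteEntropy p ∧ ∀ S, h S = ent p S

/-- A family `M` of subsets is Shannon-complete if each linear inequality with coefficients
supported on `M` that holds for all entropic polymatroids holds for all polymatroids. -/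
def ShannonComplete {n : ℕ} (M : Set (Finset (Fin n))) : Prop :=
  ∀ c : Finset (Fin n) → ℝ, (∀ S, S ∉ M → c S = 0) →
    (∀ h, IsEntropic h → 0 ≤ ∑ S, c S * h S) →
      ∀ f, IsPolymatroid f → 0 ≤ ∑ S, c S * f S

/-- The complete graph scenario: all subsets with at most two elements. -/
def completeGraph (n : ℕ) : Set (Finset (Fin n)) := {S | S.card ≤ 2}

/-! ### Finite approximations -/

/-- The mass of `y` in a finite part of the law. -/
noncomputable def mf {n : ℕ} (p : (Fin n → ℕ) → ℝ) (S : Finset (Fin n)) (F : Finset (Fin n → ℕ))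
    (y : S → ℕ) : ℝ := ∑ x ∈ F, if restr S x = y then p x else 0

theorem hasSum_marg {n : ℕ} {p : (Fin n → ℕ) → ℝ} (hp : IsLaw p) (S : Finset (Fin n)) :
    HasSum (marg p S) 1 := hp.2.tsum_fiberwise (restr S)

theorem hasSum_ite {n : ℕ} {p : (Fin n → ℕ) → ℝ} (hp : IsLaw p) (S : Finset (Fin n))
    (y : S → ℕ) : HasSum (fun x => if restr S x = y then p x else 0) (marg p S y) := by
  have h1 : Summable fun x : (restr S ⁻¹' {y} : Set (Fin n → ℕ)) => p x :=
    hp.2.summable.subtype _
  have h2 := (hasSum_subtype_iff_indicator (f := p)).mp h1.hasSum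
  have h3 : (fun x => if restr S x = y then p x else 0) =
      (restr S ⁻¹' {y} : Set (Fin n → ℕ)).indicator p := by
    funext x
    by_cases h : restr S x = y
    · rw [if_pos h, Set.indicator_of_mem (show x ∈ restr S ⁻¹' {y} from h)]
    · rw [if_neg h, Set.indicator_of_notMem (show x ∉ restr S ⁻¹' {y} from h)]
  rw [h3]
  exact h2

theorem marg_nonneg {n : ℕ} {p : (Fin n → ℕ) → ℝ} (hp : IsLaw p) (S : Finset (Fin n))
    (y : S → ℕ) : 0 ≤ marg p S y := tsum_nonneg fun x => hp.1 x

theorem marg_le_one {n : ℕ} {p : (Fin n → ℕ) → ℝ} (hp : IsLaw p) (S : Finset (Fin n))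
    (y : S → ℕ) : marg p S y ≤ 1 :=
  le_hasSum (hasSum_marg hp S) y (fun z _ => marg_nonneg hp S z)

theorem mf_nonneg {n : ℕ} {p : (Fin n → ℕ) → ℝ} (hp : IsLaw p) (S : Finset (Fin n))
    (F : Finset (Fin n → ℕ)) (y : S → ℕ) : 0 ≤ mf p S F y := by
  apply Finset.sum_nonneg
  intro x _
  split_ifs
  · exact hp.1 x
  · exact le_refl _

theorem mf_le {n : ℕ} {p : (Fin n → ℕ) → ℝ} (hp : IsLaw p) (S : Finset (Fin n))
    (F : Finset (Fin n → ℕ)) (y : S → ℕ) : mf p S F y ≤ marg p S y := by
  apply sum_le_hasSum F _ (hasSum_ite hp S y)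
  intro x _
  split_ifs
  · exact hp.1 x
  · exact le_refl _

/-- The bound `-a log a ≤ -b log b + b` for `0 ≤ a ≤ b ≤ 1`. -/
theorem negMulLog_bound {a b : ℝ} (ha : 0 ≤ a) (hab : a ≤ b) (hb : b ≤ 1) :
    Real.negMulLog a ≤ Real.negMulLog b + b := by
  rcases ha.eq_or_lt with h | h
  · rw [← h, Real.negMulLog_zero]
    exact add_nonneg (Real.negMulLog_nonneg (ha.trans hab) hb) (ha.trans hab)
  · have hb0 : 0 < b := lt_of_lt_of_le h hab
    have h1 : Real.log (b / a) ≤ b / a - 1 := Real.log_le_sub_one_of_pos (div_pos hb0 h)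
    rw [Real.log_div hb0.ne' h.ne'] at h1
    have h2 : a * (Real.log b - Real.log a) ≤ a * (b / a - 1) :=
      mul_le_mul_of_nonneg_left h1 h.le
    have h3 : a * (b / a - 1) = b - a := by
      field_simp
    have h4 : Real.log b ≤ 0 := Real.log_nonpos hb0.le hb
    rw [h3] at h2
    simp only [Real.negMulLog]
    nlinarith

theorem summable_nml {n : ℕ} {p : (Fin n → ℕ) → ℝ} (hf : FiniteEntropy p) (S : Finset (Fin n)) :
    Summable fun y : S → ℕ => Real.negMulLog (marg p S y) := by
  have h := (hf S).mul_right (Real.log 2)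
  refine h.congr fun y => ?_
  have hl : Real.log 2 ≠ 0 := (Real.log_pos (by norm_num)).ne'
  simp only [Real.negMulLog, Real.logb]
  field_simp

theorem ent_eq {n : ℕ} (p : (Fin n → ℕ) → ℝ) (S : Finset (Fin n)) :
    ent p S = (∑' y : S → ℕ, Real.negMulLog (marg p S y)) / Real.log 2 := by
  unfold ent
  rw [← tsum_div_const]
  apply tsum_congr
  intro y
  simp only [Real.negMulLog, Real.logb]
  ring

/-- The entropy of a finite part of the law. -/
noncomputable def HF {n : ℕ} (p : (Fin n → ℕ) → ℝ) (S : Finset (Fin n))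
    (F : Finset (Fin n → ℕ)) : ℝ := ∑' y : S → ℕ, Real.negMulLog (mf p S F y)

open Filter Topology in
theorem tendsto_HF {n : ℕ} {p : (Fin n → ℕ) → ℝ} (hp : IsLaw p) (hf : FiniteEntropy p)
    (S : Finset (Fin n)) :
    Tendsto (HF p S) atTop (𝓝 (∑' y : S → ℕ, Real.negMulLog (marg p S y))) := by
  unfold HF
  apply tendsto_tsum_of_dominated_convergence
    (bound := fun y => Real.negMulLog (marg p S y) + marg p S y)
  · exact (summable_nml hf S).add (hasSum_marg hp S).summable
  · intro y
    have h1 : Tendsto (fun F => mf p S F y) atTop (𝓝 (marg p S y)) := hasSum_ite hp S y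
    exact (Real.continuous_negMulLog.tendsto _).comp h1
  · refine Eventually.of_forall fun F y => ?_
    rw [Real.norm_eq_abs, abs_of_nonneg]
    · exact negMulLog_bound (mf_nonneg hp S F y) (mf_le hp S F y) (marg_le_one hp S y)
    · exact Real.negMulLog_nonneg (mf_nonneg hp S F y)
        ((mf_le hp S F y).trans (marg_le_one hp S y))

/-- The relation with the finite entropies of the library. -/
theorem HF_eq {n : ℕ} (p : (Fin n → ℕ) → ℝ) (S : Finset (Fin n)) (F : Finset (Fin n → ℕ)) :
    HF p S F = Hf (fun x : F => p x) (fun x : F => restr S (x : Fin n → ℕ)) := by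
  classical
  have hmg : ∀ x : F, mg (fun x : F => p x) (fun x : F => restr S (x : Fin n → ℕ)) x =
      mf p S F (restr S x) := by
    intro x
    unfold mg mf
    rw [← Finset.sum_coe_sort F]
  unfold HF Hf
  rw [tsum_eq_sum (s := F.image (restr S))]
  · simp only [hmg]
    rw [Finset.sum_coe_sort F (fun x => p x * (-Real.log (mf p S F (restr S x)))),
      ← Finset.sum_fiberwise_of_maps_to (s := F) (t := F.image (restr S)) (g := restr S)
        (fun x hx => Finset.mem_image_of_mem _ hx)]
    apply Finset.sum_congr rfl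
    intro y _
    rw [Finset.sum_congr rfl (g := fun x => p x * (-Real.log (mf p S F y)))
      (fun x hx => by rw [(Finset.mem_filter.mp hx).2]), ← Finset.sum_mul]
    unfold Real.negMulLog
    have : mf p S F y = ∑ x ∈ F with restr S x = y, p x := by
      unfold mf
      rw [Finset.sum_filter]
    rw [← this]
    ring
  · intro y hy
    have : mf p S F y = 0 := by
      apply Finset.sum_eq_zero
      intro x hx
      rw [if_neg]
      intro h
      exact hy (h ▸ Finset.mem_image_of_mem _ hx)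
    rw [this, Real.negMulLog_zero]

theorem HV_mono {Ω : Type*} [Fintype Ω] {k : ℕ} (w : Ω → ℝ) (hw : ∀ ω, 0 ≤ w ω)
    (V : Fin k → Ω → ℕ) {T T' : Finset (Fin k)} (h : T ⊆ T') : HV w V T ≤ HV w V T' := by
  unfold HV Hf
  apply Finset.sum_le_sum
  intro ω _
  rcases (hw ω).eq_or_lt with h0 | h0
  · rw [← h0, zero_mul, zero_mul]
  · apply mul_le_mul_of_nonneg_left _ h0.le
    apply neg_le_neg
    apply Real.log_le_log (lt_of_lt_of_le h0 (le_mg w hw _ ω))
    unfold mg
    apply Finset.sum_le_sum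
    intro ω' _
    by_cases h1 : tup V T' ω' = tup V T' ω
    · rw [if_pos h1, if_pos]
      rw [tup_eq_iff] at h1 ⊢
      exact fun i hi => h1 i (h hi)
    · rw [if_neg h1]
      split_ifs
      · exact hw ω'
      · exact le_refl _

/-- The inequality for finite entropies. -/
theorem ineq_fin {Ω : Type*} [Fintype Ω] (w : Ω → ℝ) (hw : ∀ ω, 0 ≤ w ω) (V : Fin 5 → Ω → ℕ) :
    0 ≤ -HV w V {0} - HV w V {0, 1} - 2 * HV w V {2, 3} + 3 * HV w V {0, 2} + 3 * HV w V {0, 3} +
      HV w V {1, 2} + HV w V {1, 3} - 2 * HV w V {2} - 2 * HV w V {3} - 4 * HV w V {0, 4} -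
      HV w V {1, 4} + 5 * HV w V {2, 4} + 5 * HV w V {3, 4} - 5 * HV w V {4} := by
  have key : ∀ (T : Finset (Fin 4)) (T' : Finset (Fin 5)),
      (∀ ω ω' : Ω, (∀ i ∈ T', V i ω = V i ω') ↔ ∀ i ∈ T, V i.castSucc ω = V i.castSucc ω') →
      HV w (fun i => V i.castSucc) T = HV w V T' := by
    intro T T' h
    have := HV_eq w (fun i : Fin 4 => V i.castSucc) T (tup V T') (by
      intro ω ω'
      rw [tup_eq_iff]
      exact h ω ω')
    exact this
  have zy := zhang_yeung w hw (fun i : Fin 4 => V i.castSucc)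
  rw [key {2} {2} (by intro ω ω'; simp), key {3} {3} (by intro ω ω'; simp),
    key {2, 3} {2, 3} (by intro ω ω'; simp), key {0} {0} (by intro ω ω'; simp),
    key {1} {1} (by intro ω ω'; simp), key {0, 1} {0, 1} (by intro ω ω'; simp),
    key {0, 2, 3} {0, 2, 3} (by intro ω ω'; simp), key {0, 2} {0, 2} (by intro ω ω'; simp),
    key {0, 3} {0, 3} (by intro ω ω'; simp), key {1, 2} {1, 2} (by intro ω ω'; simp),
    key {1, 3} {1, 3} (by intro ω ω'; simp), key {1, 2, 3} {1, 2, 3} (by intro ω ω'; simp)] at zy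
  have s1 := HV_submod w hw V {0} {4} {2, 3} {0, 2, 3, 4} {0, 2, 3} {2, 3, 4}
    (by decide) (by decide) (by decide)
  have s2 := HV_submod w hw V {1} {4} {2, 3} {1, 2, 3, 4} {1, 2, 3} {2, 3, 4}
    (by decide) (by decide) (by decide)
  have s3 := HV_submod w hw V {2} {3} {4} {2, 3, 4} {2, 4} {3, 4}
    (by decide) (by decide) (by decide)
  have m1 := HV_mono w hw V (T := {0, 4}) (T' := {0, 2, 3, 4}) (by decide)
  have m2 := HV_mono w hw V (T := {1, 4}) (T' := {1, 2, 3, 4}) (by decide)
  linarith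

/-! ### The inequality on the pairs -/

/-- The coefficients of the inequality. -/
def coef (S : Finset (Fin 5)) : ℤ :=
  (if S = {0} then -1 else 0) + (if S = {0, 1} then -1 else 0) + (if S = {2, 3} then -2 else 0) +
  (if S = {0, 2} then 3 else 0) + (if S = {0, 3} then 3 else 0) + (if S = {1, 2} then 1 else 0) +
  (if S = {1, 3} then 1 else 0) + (if S = {2} then -2 else 0) + (if S = {3} then -2 else 0) +
  (if S = {0, 4} then -4 else 0) + (if S = {1, 4} then -1 else 0) + (if S = {2, 4} then 5 else 0) +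
  (if S = {3, 4} then 5 else 0) + (if S = {4} then -5 else 0)

theorem coef_expand (g : Finset (Fin 5) → ℝ) : ∑ S, (coef S : ℝ) * g S =
    -g {0} - g {0, 1} - 2 * g {2, 3} + 3 * g {0, 2} + 3 * g {0, 3} + g {1, 2} + g {1, 3} -
      2 * g {2} - 2 * g {3} - 4 * g {0, 4} - g {1, 4} + 5 * g {2, 4} + 5 * g {3, 4} -
      5 * g {4} := by
  unfold coef
  push_cast
  simp only [add_mul, ite_mul, zero_mul, Finset.sum_add_distrib, Finset.sum_ite_eq',
    Finset.mem_univ, if_true]
  ring

theorem coef_card : ∀ S : Finset (Fin 5), 2 < S.card → coef S = 0 := by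
  decide +kernel

/-- The coefficients for `n` variables. -/
noncomputable def cc {n : ℕ} (e : Fin 5 ↪ Fin n) (S : Finset (Fin n)) : ℝ :=
  ∑ T : Finset (Fin 5), if T.map e = S then (coef T : ℝ) else 0

theorem cc_sum {n : ℕ} (e : Fin 5 ↪ Fin n) (g : Finset (Fin n) → ℝ) :
    ∑ S, cc e S * g S = ∑ T, (coef T : ℝ) * g (T.map e) := by
  unfold cc
  simp only [Finset.sum_mul, ite_mul, zero_mul]
  rw [Finset.sum_comm]
  simp

theorem cc_support {n : ℕ} (e : Fin 5 ↪ Fin n) (S : Finset (Fin n)) (hS : S ∉ completeGraph n) :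
    cc e S = 0 := by
  unfold cc
  apply Finset.sum_eq_zero
  intro T _
  split_ifs with h
  · have h2 : 2 < T.card := by
      have : ¬ S.card ≤ 2 := hS
      rw [← h, Finset.card_map] at this
      omega
    rw [coef_card T h2]
    simp
  · rfl

theorem restr_eq_iff {n : ℕ} (e : Fin 5 ↪ Fin n) (T : Finset (Fin 5)) (x x' : Fin n → ℕ) :
    restr (T.map e) x = restr (T.map e) x' ↔ ∀ i ∈ T, x (e i) = x' (e i) := by
  constructor
  · intro h i hi
    exact congrFun h ⟨e i, Finset.mem_map_of_mem e hi⟩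
  · intro h
    funext ⟨j, hj⟩
    obtain ⟨i, hi, rfl⟩ := Finset.mem_map.mp hj
    exact h i hi

theorem entropic_ineq {n : ℕ} (e : Fin 5 ↪ Fin n) (h : Finset (Fin n) → ℝ) (hh : IsEntropic h) :
    0 ≤ ∑ S, cc e S * h S := by
  obtain ⟨p, hp, hf, hent⟩ := hh
  rw [cc_sum]
  have hl : 0 < Real.log 2 := Real.log_pos (by norm_num)
  have h1 : ∑ T, (coef T : ℝ) * h (T.map e) =
      (∑ T, (coef T : ℝ) * ∑' y, Real.negMulLog (marg p (T.map e) y)) / Real.log 2 := by
    rw [Finset.sum_div]
    apply Finset.sum_congr rfl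
    intro T _
    rw [hent, ent_eq]
    ring
  rw [h1]
  apply div_nonneg _ hl.le
  have h2 : Filter.Tendsto (fun F => ∑ T, (coef T : ℝ) * HF p (T.map e) F) Filter.atTop
      (nhds (∑ T, (coef T : ℝ) * ∑' y, Real.negMulLog (marg p (T.map e) y))) := by
    apply tendsto_finsetSum
    intro T _
    exact (tendsto_HF hp hf (T.map e)).const_mul _
  refine ge_of_tendsto' h2 fun F => ?_
  rw [coef_expand]
  have h3 : ∀ T : Finset (Fin 5), HF p (T.map e) F =
      HV (fun x : F => p x) (fun i (x : F) => (x : Fin n → ℕ) (e i)) T := by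
    intro T
    rw [HF_eq]
    symm
    apply HV_eq
    intro x x'
    exact restr_eq_iff e T x x'
  simp only [h3]
  have := ineq_fin (fun x : F => p x) (fun x => hp.1 x) (fun i (x : F) => (x : Fin n → ℕ) (e i))
  linarith

/-! ### The polymatroid -/

/-- The polymatroid on the first four elements. -/
def F4 (T : Finset (Fin 5)) : ℕ :=
  if T = ∅ then 0 else if T.card = 1 then 2
  else if T.card = 2 then (if T = {0, 1} then 4 else 3) else 4

/-- The polymatroid on five elements. -/
def F5 (S : Finset (Fin 5)) : ℕ := F4 (if 4 ∈ S then (S.erase 4) ∪ {2, 3} else S)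

theorem F5_mono : ∀ S T : Finset (Fin 5), S ⊆ T → F5 S ≤ F5 T := by
  decide +kernel

theorem F5_sub : ∀ S T : Finset (Fin 5), F5 (S ∩ T) + F5 (S ∪ T) ≤ F5 S + F5 T := by
  decide +kernel

theorem F5_value : ∑ T, coef T * (F5 T : ℤ) = -1 := by
  decide +kernel

/-- The polymatroid on `n` elements; the others are loops. -/
noncomputable def Fn {n : ℕ} (e : Fin 5 ↪ Fin n) (S : Finset (Fin n)) : ℝ :=
  (F5 (Finset.univ.filter fun i => e i ∈ S) : ℕ)

theorem Fn_polymatroid {n : ℕ} (e : Fin 5 ↪ Fin n) : IsPolymatroid (Fn e) := by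
  refine ⟨?_, fun S => Nat.cast_nonneg _, ?_, ?_⟩
  · unfold Fn
    have : (Finset.univ.filter fun i : Fin 5 => e i ∈ (∅ : Finset (Fin n))) = ∅ := by simp
    rw [this]
    have h2 : F5 ∅ = 0 := by decide
    rw [h2]
    norm_num
  · intro S T hST
    have := F5_mono (Finset.univ.filter fun i => e i ∈ S) (Finset.univ.filter fun i => e i ∈ T) (by
      intro i hi
      simp only [Finset.mem_filter, Finset.mem_univ, true_and] at hi ⊢
      exact hST hi)
    unfold Fn
    exact_mod_cast this
  · intro S T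
    have := F5_sub (Finset.univ.filter fun i => e i ∈ S) (Finset.univ.filter fun i => e i ∈ T)
    have h1 : (Finset.univ.filter fun i : Fin 5 => e i ∈ S) ∩
        (Finset.univ.filter fun i : Fin 5 => e i ∈ T) =
        Finset.univ.filter fun i : Fin 5 => e i ∈ S ∩ T := by
      ext i
      simp
    have h2 : (Finset.univ.filter fun i : Fin 5 => e i ∈ S) ∪
        (Finset.univ.filter fun i : Fin 5 => e i ∈ T) =
        Finset.univ.filter fun i : Fin 5 => e i ∈ S ∪ T := by
      ext i
      simp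
    rw [h1, h2] at this
    unfold Fn
    exact_mod_cast this

theorem Fn_value {n : ℕ} (e : Fin 5 ↪ Fin n) : ∑ S, cc e S * Fn e S = -1 := by
  rw [cc_sum]
  have h1 : ∀ T : Finset (Fin 5), Fn e (T.map e) = ((F5 T : ℤ) : ℝ) := by
    intro T
    unfold Fn
    have : (Finset.univ.filter fun i : Fin 5 => e i ∈ T.map e) = T := by
      ext i
      simp
    rw [this]
    push_cast
    rfl
  simp only [h1]
  have h2 : ((∑ T, coef T * (F5 T : ℤ) : ℤ) : ℝ) = ((-1 : ℤ) : ℝ) := by rw [F5_value]
  push_cast at h2 ⊢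
  exact h2

/-- **Main result (negative answer to Q2).** For every `n ≥ 5` the complete graph scenario `K_n` is
not Shannon-complete: some linear inequality in the entropies of single variables and of pairs holds
for all entropic polymatroids but fails for some polymatroid. -/
theorem result : ∀ n : ℕ, 5 ≤ n → ¬ ShannonComplete (completeGraph n) := by
  intro n hn h
  have := h (cc (Fin.castLEEmb hn)) (cc_support _) (entropic_ineq _) (Fn (Fin.castLEEmb hn))
    (Fn_polymatroid _)
  rw [Fn_value] at this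
  norm_num at this

end Pool.Agent.Results.MP_7216ee_lc.PairScenario
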